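import Pool.Agent.Lib.MP_60829e_nt.AC.Final

/-! MP_60829e_nt: for 100 percent of the tuples of positive integers the logarithms satisfy no
relation over the algebraic numbers of bounded additive complexity, of whatever degree; uniform
and quantitative, and together with a given family of numbers without such relations. -/

namespace Pool.Agent.Results.MP_60829e_nt.AdditiveComplexity

open MP60829e.AC

theorem result (n k a : ℕ) : ∃ C : ℕ, ∀ (D : ℕ∞) (lam : Fin k → ℂ), NoCx a D lam →
    ∀ (u : Fin n → ℂ) (B : ℕ), 16 ≤ B →
      ({b : Fin n → ℕ | (∀ i, 1 ≤ b i ∧ b i ≤ B) ∧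
        ¬ NoCx a D (Sum.elim lam fun i => u i + ((Real.log (b i) : ℝ) : ℂ))}.ncard : ℝ) ≤
        C * Real.log (Real.log B) ^ C / Real.log B ^ (if k = 0 then 2 else 1) * B ^ n :=
  final n k a

end Pool.Agent.Results.MP_60829e_nt.AdditiveComplexity
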