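import Pool.Agent.Lib.MP_60829e_nt.HD.FinD

/-! # Baker's theorem with products

For suitable natural numbers `a 0, a 1, …` of bounded size the numbers `1`, all `log p` and all
products `log (a i) * log (a j)`, `i ≤ j`, are linearly independent over the algebraic numbers.

More generally, `lam` is any sequence of logarithms of algebraic numbers which is linearly
independent over the rational numbers. A generic rational row `x b` of length `j b` gives the
logarithm `u b = x b 0 * lam 0 + ... + x b (j b - 1) * lam (j b - 1)`. For `j b = 2 * b + 4` the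
products `u a * u b`, `a ≤ b`, are linearly independent over the algebraic numbers, and remain so
together with `1` and all the logarithms: no nonzero linear combination of them is a linear form in
logarithms. -/

open MvPolynomial

namespace Pool.Agent.Results.MP_60829e_nt.BakerWithProducts

/-- Let the rational rows `x b`, with `j b` entries, avoid a hypersurface `H b`, of degree at most
`d b`, which depends on the previous rows. Then no nonzero polynomial over the algebraic numbers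
with monomials in `M` takes, at the numbers `u b = ∑ t, x b t * lam t`, a value in the space spanned
over the algebraic numbers by `1` and all the logarithms of algebraic numbers. -/
def Generic (lam : ℕ → ℂ) (M : Set (ℕ →₀ ℕ)) (j d : ℕ → ℕ) : Prop :=
  ∃ H : (b : ℕ) → (Fin b → ℕ → ℚ) → MvPolynomial (Fin (j b)) ℚ,
    (∀ b y, H b y ≠ 0 ∧ (H b y).totalDegree ≤ d b) ∧
    ∀ x : ℕ → ℕ → ℚ, (∀ b, eval (fun t : Fin (j b) => x b t) (H b fun i => x i) ≠ 0) →
      ∀ P : MvPolynomial ℕ ℂ, (∀ a, IsAlgebraic ℚ (coeff a P)) → (∀ a ∈ P.support, a ∈ M) →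
        eval (fun b => ∑ t : Fin (j b), (x b t : ℂ) * lam t) P ∈
          Submodule.span (algebraicClosure ℚ ℂ)
            ({1} ∪ {z : ℂ | IsAlgebraic ℚ (Complex.exp z)}) → P = 0

theorem generic_of {lam : ℕ → ℂ} {M : Set (ℕ →₀ ℕ)} {j d : ℕ → ℕ}
    (h : ∃ H : (b : ℕ) → (Fin b → ℕ → ℚ) → MvPolynomial (Fin (j b)) ℚ,
      (∀ b y, H b y ≠ 0 ∧ (H b y).totalDegree ≤ d b) ∧
      ∀ x : ℕ → ℕ → ℚ, (∀ b, eval (fun t : Fin (j b) => x b t) (H b fun i => x i) ≠ 0) →
        ∀ P : MvPolynomial ℕ (algebraicClosure ℚ ℂ), (∀ a ∈ P.support, a ∈ M) →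
          aeval (fun b => ∑ t : Fin (j b), (x b t : ℂ) * lam t) P ∈ MP60829e.ST.Lt → P = 0) :
    Generic lam M j d := by
  obtain ⟨H, hH0, hH⟩ := h
  refine ⟨H, hH0, fun x hx P hPa hPM hPL => ?_⟩
  obtain ⟨P', hP1, rfl⟩ := MP60829e.HD.exists_over hPa
  have h1 : ∀ a ∈ P'.support, a ∈ M := by
    intro a ha
    refine hPM a ?_
    rw [MvPolynomial.mem_support_iff] at ha ⊢
    rw [coeff_map]
    intro h
    exact ha ((algebraMap (algebraicClosure ℚ ℂ) ℂ).injective (h.trans (map_zero _).symm))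
  rw [eval_map] at hPL
  rw [hH x hx P' h1 hPL, map_zero]

theorem result :
    (∃ a : ℕ → ℕ, (∀ b, ∃ x : ℕ → ℕ, (∀ t, x t ≤ (b + 1) * (b + 2) / 2 + 2) ∧
        a b = ∏ t ∈ Finset.range (2 * b + 4), Nat.nth Nat.Prime t ^ x t) ∧
      LinearIndependent (algebraicClosure ℚ ℂ)
        (Sum.elim (Sum.elim (fun _ : Unit => (1 : ℂ)) fun p : Nat.Primes => Complex.log (p : ℕ))
          fun p : {p : ℕ × ℕ // p.1 ≤ p.2} => Complex.log (a p.1.1) * Complex.log (a p.1.2))) ∧
    ∀ lam : ℕ → ℂ, (∀ i, IsAlgebraic ℚ (Complex.exp (lam i))) → LinearIndependent ℚ lam →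
      (∃ u : ℕ → ℂ, (∀ b, ∃ x : ℕ → ℕ, (∀ t, x t ≤ (b + 1) * (b + 2) / 2 + 2) ∧
          u b = ∑ t ∈ Finset.range (2 * b + 4), (x t : ℂ) * lam t) ∧
        LinearIndependent (algebraicClosure ℚ ℂ)
          (Sum.elim (Sum.elim (fun _ : Unit => (1 : ℂ)) lam)
            fun p : {p : ℕ × ℕ // p.1 ≤ p.2} => u p.1.1 * u p.1.2)) ∧
      Generic lam {a | a.degree = 2} (fun b => 2 * b + 4) (fun b => (b + 1) * (b + 2) / 2 + 2) ∧
      ∀ (M : Set (ℕ →₀ ℕ)) (m : ℕ → ℕ), (∀ a ∈ M, 2 ≤ a.degree) →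
        (∀ a ∈ M, ∀ c, c ≤ a → 2 ≤ c.degree → c ∈ M) →
        (∀ b, {a | a ∈ M ∧ b ∈ a.support ∧ ∀ i ∈ a.support, i ≤ b}.Finite ∧
          {a | a ∈ M ∧ b ∈ a.support ∧ ∀ i ∈ a.support, i ≤ b}.ncard ≤ m b) →
        Generic lam M (fun b => m b + 2 * b + 3) fun b => 1 + (m b + 1) *
          ∑ i ∈ Finset.range (b + 1 + ∑ i ∈ Finset.range (b + 1), m i), m i := by
  classical
  refine ⟨?_, fun lam halg hli => ⟨?_, generic_of (MP60829e.HD.hdLD halg hli),
    fun M m hM2 hM hm => ?_⟩⟩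
  · obtain ⟨x, hx1, hx⟩ := MP60829e.HD.primes_nat
    obtain ⟨a, ha⟩ : ∃ a : ℕ → ℕ, ∀ b, a b = ∏ t ∈ Finset.range (2 * b + 4),
      Nat.nth Nat.Prime t ^ x b t := ⟨_, fun b => rfl⟩
    exact ⟨a, fun b => ⟨x b, hx1 b, ha b⟩, hx a ha⟩
  · obtain ⟨x, hx1, hx⟩ := MP60829e.HD.products_nat halg hli
    obtain ⟨u, hu⟩ : ∃ u : ℕ → ℂ, ∀ b, u b = ∑ t ∈ Finset.range (2 * b + 4),
      (x b t : ℂ) * lam t := ⟨_, fun b => rfl⟩
    exact ⟨u, fun b => ⟨x b, hx1 b, hu b⟩, hx u hu⟩
  · have hset : ∀ b, {a : ℕ →₀ ℕ | a ∈ M ∧ a.support ⊆ Finset.range (b + 1) ∧ b ∈ a.support} =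
        {a | a ∈ M ∧ b ∈ a.support ∧ ∀ i ∈ a.support, i ≤ b} := by
      intro b
      ext a
      refine and_congr_right fun _ => ?_
      rw [and_comm]
      refine and_congr_right fun _ => ?_
      exact ⟨fun h i hi => Nat.lt_succ_iff.1 (Finset.mem_range.1 (h hi)),
        fun h i hi => Finset.mem_range.2 (Nat.lt_succ_of_le (h i hi))⟩
    refine generic_of (MP60829e.HD.hmLD_main halg hli hM2 hM (fun n => ?_) fun b => ?_)
    · refine (Set.Finite.biUnion (Finset.range n).finite_toSet fun b _ => (hm b).1).subset ?_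
      rintro a ⟨ha, han⟩
      have hne : a.support.Nonempty := by
        rw [Finset.nonempty_iff_ne_empty]
        intro h
        rw [Finsupp.support_eq_empty] at h
        have := hM2 a ha
        rw [h, map_zero] at this
        omega
      have hmax := Finset.max'_mem a.support hne
      rw [Set.mem_iUnion₂]
      exact ⟨a.support.max' hne, Finset.mem_coe.2 (Finset.mem_range.2 (han _ hmax)), ha, hmax,
        fun i hi => Finset.le_max' _ _ hi⟩
    · unfold MP60829e.HD.mb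
      rw [hset]
      exact (hm b).2

end Pool.Agent.Results.MP_60829e_nt.BakerWithProducts
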