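import Pool.Agent.Lib.MP_60829e_nt.SP.Rat

/-! MP_60829e_nt: the solutions of polynomial relations of any degree between given logarithms and
arbitrary further logarithms lie, outside a set of bounded dimension, on rational subspaces of
solutions. -/

open Module

namespace Pool.Agent.Results.MP_60829e_nt.BoundedDimension

/-- The `l b` are logarithms of algebraic numbers, linearly independent over `ℚ`. The `G i` and `Q i t`
are polynomials of any degree in the parameters `Fin N` and the coordinates `Fin n`. `B` is the set of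
the matrices `M` over the algebraic numbers such that, for some parameter `z` over the algebraic numbers
and some `y` whose coordinates are linear forms in `1` and arbitrary logarithms of algebraic numbers
(the coefficients are algebraic), the relations `G i (z, w) + ∑ t, y t * Q i t (z, w) = 0` hold for the
point `w` with the coordinates `∑ b, M (a, b) * l b`, but every subspace `R` over the algebraic numbers
such that all points of `(w, y) + R` are solutions has a projection to the coordinates of `w` of
dimension at most `j`. The dimension of `B` is at most `N + s + j * r + (n + s - j) * (n + s - 1)`: more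
than so many entries satisfy a nonzero polynomial relation on `B`. So `B` has few elements in every
grid. -/
theorem result {n N r s p : ℕ} (G : Fin p → MvPolynomial (Fin N ⊕ Fin n) ℂ)
    (Q : Fin p → Fin s → MvPolynomial (Fin N ⊕ Fin n) ℂ) (l : Fin r → ℂ)
    (hl : ∀ b, IsAlgebraic ℚ (Complex.exp (l b))) (hli : LinearIndependent ℚ l) (j : ℕ)
    (B : Set (Fin n × Fin r → algebraicClosure ℚ ℂ))
    (hB : B = {M | ∃ (z : Fin N → algebraicClosure ℚ ℂ) (y : Fin s → ℂ),
      (∀ t, y t ∈ Submodule.span (algebraicClosure ℚ ℂ)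
        ({1} ∪ {c : ℂ | IsAlgebraic ℚ (Complex.exp c)})) ∧
      (∀ i, MvPolynomial.eval (Sum.elim (fun t => (z t : ℂ))
          fun a => ∑ b, (M (a, b) : ℂ) * l b) (G i) +
        ∑ t, y t * MvPolynomial.eval (Sum.elim (fun t => (z t : ℂ))
          fun a => ∑ b, (M (a, b) : ℂ) * l b) (Q i t) = 0) ∧
      ∀ R : Submodule (algebraicClosure ℚ ℂ)
          ((Fin n → algebraicClosure ℚ ℂ) × (Fin s → algebraicClosure ℚ ℂ)),
        (∀ ρ ∈ R, ∀ i, MvPolynomial.eval (Sum.elim (fun t => (z t : ℂ))
            fun a => ∑ b, (M (a, b) : ℂ) * l b + (ρ.1 a : ℂ)) (G i) +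
          ∑ t, (y t + (ρ.2 t : ℂ)) * MvPolynomial.eval (Sum.elim (fun t => (z t : ℂ))
            fun a => ∑ b, (M (a, b) : ℂ) * l b + (ρ.1 a : ℂ)) (Q i t) = 0) →
        finrank (algebraicClosure ℚ ℂ) (R.map (LinearMap.fst (algebraicClosure ℚ ℂ)
          (Fin n → algebraicClosure ℚ ℂ) (Fin s → algebraicClosure ℚ ℂ))) ≤ j}) :
    (∀ J : Finset (Fin n × Fin r), N + s + j * r + (n + s - j) * (n + s - 1) < J.card →
      ∃ P : MvPolynomial (Fin n × Fin r) (algebraicClosure ℚ ℂ), P ≠ 0 ∧ P.vars ⊆ J ∧
        ∀ M ∈ B, MvPolynomial.eval M P = 0) ∧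
    ∃ K : ℕ, ∀ S : Finset (algebraicClosure ℚ ℂ), S.Nonempty →
      {M | M ∈ B ∧ ∀ q, M q ∈ S}.ncard ≤
        K * S.card ^ (N + s + j * r + (n + s - j) * (n + s - 1)) := by
  refine (fun h => ⟨h, MP60829e.SP.count_formQ B h⟩) fun J hJ => ?_
  obtain ⟨P, hP, hv, h⟩ := MP60829e.SP.dim_formQ G Q l hl hli J hJ
  refine ⟨P, hP, hv, fun M hM => ?_⟩
  rw [hB] at hM
  obtain ⟨z, y, h1⟩ := hM
  exact h z M y h1

end Pool.Agent.Results.MP_60829e_nt.BoundedDimension
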