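import Pool.Agent.Lib.MP_60829e_nt.FG.DensI

namespace Pool.Agent.Results.MP_60829e_nt.DenseSubspace

open MvPolynomial Module

/-- The conclusion of Q1 in the strong form of Roy, in degree at most `D`, for `w 0, …, w (n - 1)`:
each relation of total degree at most `D` with algebraic coefficients between the `w j` is a
consequence of their affine relations with algebraic coefficients, that is, it vanishes at each
complex point `x` which satisfies all affine relations of `w`. -/
def Formal {n : ℕ} (D : ℕ) (w : Fin n → ℂ) : Prop :=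
  ∀ g : MvPolynomial (Fin n) ℂ, (∀ a, IsAlgebraic ℚ (coeff a g)) → g.totalDegree ≤ D →
    eval w g = 0 → ∀ x : Fin n → ℂ,
      (∀ (q₀ : ℂ) (q : Fin n → ℂ), IsAlgebraic ℚ q₀ → (∀ j, IsAlgebraic ℚ (q j)) →
        q₀ + ∑ j, q j * w j = 0 → q₀ + ∑ j, q j * x j = 0) → eval x g = 0

/-- Let `lam` be a basis of the rational space of all logarithms of algebraic numbers. Let
`φ = (φ 0, φ 1, …)` be any rational linear map with only `μ r` nonzero coordinates at `lam r`, and
whose value at `lam r` avoids one hypersurface, which depends on the values at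
`lam 0, …, lam (r - 1)`. The space `F` of all logarithms in the kernel of `φ` and the
intersections `Fr r` of `F` and the span of `lam 0, …, lam (r - 1)` have the following properties,
for all `r ≥ s`, `n` and `D` such that `μ r` is at least `(n + D).choose n + n (n - 1) + 1`.
`Formal D w` holds for all `w 0, …, w (n - 1)` in `Qbar + Qbar F` such that the span of `1` and the
`w j` meets the span of `Fr r` only in `0`.
If `Formal D w` holds for all `w 0, …, w (n - 1)` in `Qbar + Qbar (Fr r)`, for example if the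
dimension of `Fr r` is at most `1`, then it holds for all `w 0, …, w (n - 1)` in `Qbar + Qbar F`.
The last statement is for a given sequence of families of polynomials of any degree with complex
coefficients; the number of conditions does not depend on the degree. -/
theorem result (μ : ℕ → ℕ) (hμ : Monotone μ) (s : ℕ) (lam : ℕ → ℂ)
    (halg : ∀ j, IsAlgebraic ℚ (Complex.exp (lam j))) (hli : LinearIndependent ℚ lam)
    (hspan : ∀ z : ℂ, IsAlgebraic ℚ (Complex.exp z) → z ∈ Submodule.span ℚ (Set.range lam))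
    (n' N' : ℕ → ℕ) (P : (i : ℕ) → MvPolynomial (Fin (N' i) ⊕ Fin (n' i)) ℂ) :
    ∃ H : (r : ℕ) → (Fin r → ℕ → ℚ) → MvPolynomial (Fin (μ r)) ℚ, (∀ r y, H r y ≠ 0) ∧
      ∀ φ : ℕ → ℂ →ₗ[ℚ] ℚ, (∀ r t, μ r ≤ t → φ t (lam r) = 0) → (∀ r < s, ∀ t, φ t (lam r) = 0) →
        (∀ r, s ≤ r → eval (fun t : Fin (μ r) => φ t (lam r)) (H r fun j t => φ t (lam j)) ≠ 0) →
      ∀ (F : Submodule ℚ ℂ) (Fr : ℕ → Submodule ℚ ℂ),
        (∀ l : ℂ, l ∈ F ↔ IsAlgebraic ℚ (Complex.exp l) ∧ ∀ t, φ t l = 0) →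
        (∀ r, Fr r = F ⊓ Submodule.span ℚ (lam '' Set.Iio r)) →
      ∀ r : ℕ, s ≤ r → r ≤ finrank ℚ (Fr r) + μ r ∧
      (∀ n D : ℕ, (n + D).choose n + n * (n - 1) + 1 ≤ μ r →
        (∀ w : Fin n → ℂ,
          (∀ j, w j ∈ Submodule.span (algebraicClosure ℚ ℂ) ({1} ∪ (F : Set ℂ))) →
          Disjoint (Submodule.span (algebraicClosure ℚ ℂ) ({1} ∪ Set.range w))
            (Submodule.span (algebraicClosure ℚ ℂ) (Fr r : Set ℂ)) → Formal D w) ∧
        (finrank ℚ (Fr r) ≤ 1 ∨ (∀ w : Fin n → ℂ,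
            (∀ j, w j ∈ Submodule.span (algebraicClosure ℚ ℂ) ({1} ∪ (Fr r : Set ℂ))) →
              Formal D w) →
          ∀ w : Fin n → ℂ,
            (∀ j, w j ∈ Submodule.span (algebraicClosure ℚ ℂ) ({1} ∪ (F : Set ℂ))) →
              Formal D w)) ∧
      ∀ i : ℕ, i ≤ r → N' i + n' i * (n' i - 1) + 1 ≤ μ r →
        ∀ (z : Fin (N' i) → ℂ) (w : Fin (n' i) → ℂ), (∀ l, IsAlgebraic ℚ (z l)) →
          (∀ j, w j ∈ Submodule.span (algebraicClosure ℚ ℂ) (F : Set ℂ)) →
          Disjoint (Submodule.span (algebraicClosure ℚ ℂ) (Set.range w))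
            (Submodule.span (algebraicClosure ℚ ℂ) (Fr r : Set ℂ)) →
          eval (Sum.elim z w) (P i) = 0 →
            ∀ x : Fin (n' i) → ℂ, (∀ q : Fin (n' i) → ℂ, (∀ j, IsAlgebraic ℚ (q j)) →
              ∑ j, q j * w j = 0 → ∑ j, q j * x j = 0) → eval (Sum.elim z x) (P i) = 0 := by
  obtain ⟨H, hH0, hH⟩ := MP60829e.FG.densI μ hμ s lam halg hli hspan n' N' P
  refine ⟨H, hH0, fun φ h1 h2 h3 F Fr hF hFr r hsr => ?_⟩
  obtain rfl : Fr = fun r => F ⊓ Submodule.span ℚ (lam '' Set.Iio r) := funext hFr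
  obtain ⟨hd, hC, hA, hB⟩ := hH (LinearMap.pi φ) h1 (fun j hj => funext (h2 j hj)) h3 F
    (fun l => (hF l).trans (and_congr_right fun _ => ⟨fun h => funext h, fun h t => congrFun h t⟩))
    r hsr
  exact ⟨hd, fun n D hD => ⟨fun w hw hdis g hg hD' h0 x hx => hA n D hD g hg hD' w hw hdis h0 x hx,
    fun hQ w hw g hg hgD h0 x hx => hC n D hD (hQ.imp id fun h g hg hgD w hw h0 x hx =>
      h w hw g hg hgD h0 x hx) g hg hgD w hw h0 x hx⟩, hB⟩

end Pool.Agent.Results.MP_60829e_nt.DenseSubspace
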