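import Pool.Agent.Lib.MP_60829e_nt.DensFinal

/-! MP_60829e_nt: for 100 percent of the tuples of positive integers, their logarithms satisfy no
polynomial relation of bounded degree over the algebraic numbers, even together with any fixed
finite family of numbers without such relations. -/

namespace Pool.Agent.Results.MP_60829e_nt.DensityOne

open MP60829e.Dens

theorem result (n k D : ℕ) (lam : Fin k → ℂ) (hlam : NoRel D lam) (u : Fin n → ℂ) :
    DensityZero {b : Fin n → ℕ | ∃ v : Fin n → ℂ,
      (∀ i, v i ∈ Submodule.span (algebraicClosure ℚ ℂ) (insert 1 (Set.range lam))) ∧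
      ¬ NoRel D (Sum.elim lam fun i => u i + ((Real.log (b i) : ℝ) : ℂ) + v i)} :=
  extension n k D lam hlam u

end Pool.Agent.Results.MP_60829e_nt.DensityOne
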