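import Pool.Agent.Lib.MP_60829e_nt.Rate.Final

/-! MP_60829e_nt: quantitative and uniform form of the statement that for 100 percent of the tuples
of positive integers the logarithms satisfy no relation of bounded degree over the algebraic
numbers, together with a given family of numbers without such relations. -/

namespace Pool.Agent.Results.MP_60829e_nt.DensityRate

open MP60829e.Dens

theorem result (n k D : ℕ) (lam : Fin k → ℂ) (hlam : NoRel D lam) (u : Fin n → ℂ)
    (B : ℕ) (hB : 16 ≤ B) :
    ({b : Fin n → ℕ | (∀ i, 1 ≤ b i ∧ b i ≤ B) ∧ ∃ v : Fin n → ℂ,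
      (∀ i, v i ∈ Submodule.span (algebraicClosure ℚ ℂ) (insert 1 (Set.range lam))) ∧
      ¬ NoRel D (Sum.elim lam fun i => u i + ((Real.log (b i) : ℝ) : ℂ) + v i)}.ncard : ℝ) ≤
      (10 ^ 6 * (n + k + D).choose D * Real.log (Real.log B)) ^ (3 * (n + k + D).choose D * D) /
        Real.log B ^ (if k = 0 then 2 else 1) * B ^ n :=
  MP60829e.Rate.rate n k D lam hlam u B hB

end Pool.Agent.Results.MP_60829e_nt.DensityRate
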