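import Pool.Agent.Lib.MP_60829e_nt.FZ.MainA

namespace Pool.Agent.Results.MP_60829e_nt.FiniteCodimension

open MvPolynomial

/-- Q1, in the strong form of Roy, for `n` numbers and relations of degree at most `D`, on a
rational space `F` of logarithms of algebraic numbers: each polynomial relation of total degree at
most `D` with algebraic coefficients between numbers `w 0, …, w (n - 1)` of the form `b + ∑ a l`
with `b` and the `a` algebraic and the `l` in `F` is a consequence of the affine relations with
algebraic coefficients between the `w j`: the polynomial vanishes at each complex point `x` which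
satisfies all affine relations of `w`. -/
def Q1Deg (n D : ℕ) (F : Submodule ℚ ℂ) : Prop :=
  ∀ g : MvPolynomial (Fin n) ℂ, (∀ a, IsAlgebraic ℚ (coeff a g)) → g.totalDegree ≤ D →
    ∀ w : Fin n → ℂ, (∀ j, w j ∈ Submodule.span (algebraicClosure ℚ ℂ) ({1} ∪ (F : Set ℂ))) →
      eval w g = 0 → ∀ x : Fin n → ℂ,
        (∀ (q₀ : ℂ) (q : Fin n → ℂ), IsAlgebraic ℚ q₀ → (∀ j, IsAlgebraic ℚ (q j)) →
          q₀ + ∑ j, q j * w j = 0 → q₀ + ∑ j, q j * x j = 0) → eval x g = 0

/-- Let `E` be a finite-dimensional rational space of logarithms of algebraic numbers (for example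
`0`, or the multiples of `2 π i`). There is a rational space `F` of logarithms which contains `E`,
defined by `m = N + n (n - 1) + 1` linear conditions inside the space of all logarithms, such that:
Q1 up to degree `D` passes from `E` to `F` for all `D` with `(n + D).choose n ≤ N`;
for the members `P i` of a sequence of polynomials of any degree in `n` variables and `N`
parameters there are finite-dimensional spaces `V 0 = E ≤ V 1 ≤ …` in `F` such that for all
algebraic values `z` of the parameters, and all `w 0, …, w (n - 1)` in the `Qbar`-span of `F` whose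
span meets the span of `V i` only in `0`: a zero `w` of `P i (z, ·)` is a consequence of the linear
relations between the `w j`. -/
theorem result (n N m : ℕ) (hm : N + n * (n - 1) + 1 ≤ m) (E : Submodule ℚ ℂ)
    [FiniteDimensional ℚ E] (hE : ∀ l ∈ E, IsAlgebraic ℚ (Complex.exp l))
    (P : ℕ → MvPolynomial (Fin N ⊕ Fin n) ℂ) :
    ∃ (Φ : ℂ →ₗ[ℚ] (Fin m → ℚ)) (F : Submodule ℚ ℂ) (V : ℕ → Submodule ℚ ℂ),
      (∀ l : ℂ, l ∈ F ↔ IsAlgebraic ℚ (Complex.exp l) ∧ Φ l = 0) ∧ E ≤ F ∧
      (∀ D : ℕ, (n + D).choose n ≤ N →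
        E ≤ Submodule.span ℚ {2 * Real.pi * Complex.I} ∨ Q1Deg n D E → Q1Deg n D F) ∧
      V 0 = E ∧ Monotone V ∧ (∀ i, V i ≤ F ∧ FiniteDimensional ℚ (V i)) ∧
      ∀ (i : ℕ) (z : Fin N → ℂ) (w : Fin n → ℂ), (∀ l, IsAlgebraic ℚ (z l)) →
        (∀ j, w j ∈ Submodule.span (algebraicClosure ℚ ℂ) (F : Set ℂ)) →
        Disjoint (Submodule.span (algebraicClosure ℚ ℂ) (Set.range w))
          (Submodule.span (algebraicClosure ℚ ℂ) (V i : Set ℂ)) →
        eval (Sum.elim z w) (P i) = 0 →
          ∀ x : Fin n → ℂ, (∀ q : Fin n → ℂ, (∀ j, IsAlgebraic ℚ (q j)) →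
            ∑ j, q j * w j = 0 → ∑ j, q j * x j = 0) → eval (Sum.elim z x) (P i) = 0 :=
  MP60829e.FZ.extS n N m hm E hE P

end Pool.Agent.Results.MP_60829e_nt.FiniteCodimension
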