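import Mathlib
import Pool.Agent.Lib.MP_60829e_nt.CBaker
import Pool.Agent.Lib.MP_60829e_nt.SiegelBound

namespace Pool.Agent.Results.MP_60829e_nt.FiniteOnCurves

open MvPolynomial

/-- Baker: nonzero linear forms in logarithms with algebraic coefficients are transcendental. -/
theorem linear_form_transcendental {w : ℂ}
    (hw : w ∈ Submodule.span (algebraicClosure ℚ ℂ) {z : ℂ | IsAlgebraic ℚ (Complex.exp z)})
    (hw0 : w ≠ 0) : w ∉ Set.range (algebraMap (algebraicClosure ℚ ℂ) ℂ) := by
  classical
  rintro ⟨c, rfl⟩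
  obtain ⟨s, hs, hws⟩ := Submodule.mem_span_finite_of_mem_span hw
  obtain ⟨B, hBs, hBspan, hBli⟩ := exists_linearIndependent ℚ (s : Set ℂ)
  have hBfin : B.Finite := s.finite_toSet.subset hBs
  have := hBfin.fintype
  have hle : Submodule.span (algebraicClosure ℚ ℂ) (s : Set ℂ) ≤
      Submodule.span (algebraicClosure ℚ ℂ) B := by
    rw [Submodule.span_le]
    intro x hx
    have hx' : x ∈ Submodule.span ℚ B := by
      rw [hBspan]; exact Submodule.subset_span hx
    refine Submodule.span_induction (p := fun w _ => w ∈ Submodule.span (algebraicClosure ℚ ℂ)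
      B) ?_ ?_ ?_ ?_ hx'
    · intro x hx
      exact Submodule.subset_span hx
    · exact Submodule.zero_mem _
    · intro x y _ _ hx hy
      exact Submodule.add_mem _ hx hy
    · intro q x _ hx
      have h3 : q • x = (algebraMap ℚ (algebraicClosure ℚ ℂ) q) • x := by
        rw [Algebra.smul_def, Algebra.smul_def]
        congr 1
      rw [h3]
      exact Submodule.smul_mem _ _ hx
  have h1 := hle hws
  have h2 : algebraMap (algebraicClosure ℚ ℂ) ℂ c ∈ Submodule.span (algebraicClosure ℚ ℂ)
      (Set.range (Subtype.val : B → ℂ)) := by rwa [Subtype.range_coe]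
  obtain ⟨b, hb⟩ := (Submodule.mem_span_range_iff_exists_fun _).mp h2
  have halgc : ∀ d : algebraicClosure ℚ ℂ, IsAlgebraic ℚ (algebraMap (algebraicClosure ℚ ℂ) ℂ d) :=
    fun d => mem_algebraicClosure_iff.mp d.2
  have h3 := Pool.Agent.Lib.MP_60829e_nt.Bk.baker (Subtype.val : B → ℂ)
    (fun i => hs (hBs i.2)) hBli (-(algebraMap (algebraicClosure ℚ ℂ) ℂ c)) (halgc c).neg
    (fun i => algebraMap (algebraicClosure ℚ ℂ) ℂ (b i)) (fun i => halgc (b i)) (by
      rw [← hb]
      rw [neg_add_eq_zero]
      refine Finset.sum_congr rfl fun i _ => ?_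
      rw [Algebra.smul_def, mul_comm])
  exact hw0 (neg_eq_zero.mp h3.1)

/-- For every nonzero polynomial `f` in two variables with algebraic coefficients and every
finite-dimensional space `W` of linear forms in logarithms of algebraic numbers with algebraic
coefficients, all but at most `(deg f) ^ (2 dim W)` of the nonzero zeros of `f` in `W²` are zeros
of an irreducible factor `g` of `f` which has a nonconstant zero in Laurent polynomials over the
algebraic numbers. -/
theorem result :
    ∀ f : MvPolynomial (Fin 2) (algebraicClosure ℚ ℂ), f ≠ 0 →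
    ∀ W : Submodule (algebraicClosure ℚ ℂ) ℂ, FiniteDimensional (algebraicClosure ℚ ℂ) W →
      W ≤ Submodule.span (algebraicClosure ℚ ℂ) {z : ℂ | IsAlgebraic ℚ (Complex.exp z)} →
      {x : Fin 2 → ℂ | (∀ i, x i ∈ W) ∧ x ≠ 0 ∧ aeval x f = 0 ∧
        ¬ ∃ g : MvPolynomial (Fin 2) (algebraicClosure ℚ ℂ), Irreducible g ∧ g ∣ f ∧
          aeval x g = 0 ∧
          ∃ P : Fin 2 → LaurentPolynomial (algebraicClosure ℚ ℂ), aeval P g = 0 ∧
            ∃ i, ∀ c, P i ≠ LaurentPolynomial.C c}.encard ≤
      ((f.totalDegree ^ (2 * Module.finrank (algebraicClosure ℚ ℂ) W) : ℕ) : ℕ∞) := by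
  classical
  intro f hf W hW hlog
  have hclosed : IsAlgClosed (algebraicClosure ℚ ℂ) :=
    (algebraicClosure.isAlgClosure ℚ ℂ).isAlgClosed
  let b := Module.finBasis (algebraicClosure ℚ ℂ) W
  by_cases hd : Module.finrank (algebraicClosure ℚ ℂ) W = 0
  · have hW0 : W = ⊥ := Submodule.finrank_eq_zero.mp hd
    have : {x : Fin 2 → ℂ | (∀ i, x i ∈ W) ∧ x ≠ 0 ∧ aeval x f = 0 ∧
        ¬ ∃ g : MvPolynomial (Fin 2) (algebraicClosure ℚ ℂ), Irreducible g ∧ g ∣ f ∧
          aeval x g = 0 ∧
          ∃ P : Fin 2 → LaurentPolynomial (algebraicClosure ℚ ℂ), aeval P g = 0 ∧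
            ∃ i, ∀ c, P i ≠ LaurentPolynomial.C c} = ∅ := by
      ext x
      simp only [Set.mem_ofPred_eq, Set.mem_empty_iff_false, iff_false]
      rintro ⟨h1, h2, -⟩
      apply h2
      funext i
      have := h1 i
      rw [hW0, Submodule.mem_bot] at this
      exact this
    rw [this]
    simp
  let s : Finset ℂ := Finset.univ.image (fun i => ((b i : W) : ℂ))
  have hcard : s.card = Module.finrank (algebraicClosure ℚ ℂ) W := by
    rw [Finset.card_image_of_injective]
    · simp
    · intro i j hij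
      exact b.injective (Subtype.ext hij)
  have hspan : ∀ w ∈ W, w ∈ Submodule.span (algebraicClosure ℚ ℂ) (s : Set ℂ) := by
    intro w hw
    have h1 : (⟨w, hw⟩ : W) ∈ Submodule.span (algebraicClosure ℚ ℂ) (Set.range b) := by
      rw [b.span_eq]; trivial
    have h2 := Submodule.mem_map_of_mem (f := W.subtype) h1
    rw [Submodule.map_span] at h2
    have h3 : W.subtype '' Set.range b = (s : Set ℂ) := by
      ext y
      simp [s]
    rw [h3] at h2
    exact h2
  rw [← hcard]
  exact Sieg.bound_outside (W : Set ℂ) s (by rw [hcard]; exact hd) hspan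
    (fun w hw hw0 => linear_form_transcendental (hlog hw) hw0) f hf

end Pool.Agent.Results.MP_60829e_nt.FiniteOnCurves
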