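import Pool.Agent.Lib.MP_60829e_nt.ZK.OutF
import Pool.Agent.Lib.MP_60829e_nt.ZK.DetK

/-! # Four exponentials, and relations with arbitrary logarithms as coefficients, for almost all
algebraic integers of a number field

`L` is the span over the algebraic numbers of `1` and all logarithms of algebraic numbers. Let `K` be a
number field in `ℂ`. For an ideal `I` of the ring of integers, `Log I` is the set of all logarithms of
all `β` which generate a power `I ^ m` (`m ≥ 1`) of `I`. Almost all tuples of ideals means: all but at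
most `C * (log log B) ^ C / log B * B ^ n` of the tuples of nonzero ideals of norm at most `B`, with a
constant `C` which does not depend on `E` or on `B`. -/

open Module MvPolynomial NumberField

namespace MP60829e.Old.FourExponentialsK

/-- (1) Let `E` be a finite-dimensional space over the algebraic numbers. Almost all ideals `I`
satisfy, for all `l` in `Log I`, all nonzero `θ` in `E` and all `t` at once: if `exp (t * θ)` and
`exp (t * l)` are algebraic, then `t` is rational (four exponentials); if `t * θ` and `t * l` are in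
`L`, then `t` is algebraic (strong four exponentials).
(2) For `r < n` and almost all matrices `I` of ideals of size `r * n` and all `l i j` in `Log (I i j)`:
for every row `z` with entries in `L` which is not a linear combination of the rows `l i` over the
algebraic numbers, `z` and these `r` rows are linearly independent over the complex numbers.
(3) For almost all tuples `I` and all `l i` in `Log (I i)`: let `y i` be in `q i * l i + E`, `A` a
subspace of `E` and `F` a polynomial of degree at most `D` with coefficients in `E + A * L` and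
`F y = 0`. Then `F = ∑ (X i - y i) * G i` with coefficients of the `G i` in `A`. -/
theorem result (K : Type) [Field K] [NumberField K] (σ : K →+* ℂ)
    (L : Submodule (algebraicClosure ℚ ℂ) ℂ)
    (hL : L = Submodule.span (algebraicClosure ℚ ℂ) ({1} ∪ {z | IsAlgebraic ℚ (Complex.exp z)}))
    (Log : Ideal (𝓞 K) → Set ℂ)
    (hLog : ∀ I, Log I = {l | ∃ (m : ℕ) (β : 𝓞 K), 1 ≤ m ∧ Ideal.span {β} = I ^ m ∧
      Complex.exp l = σ β}) :
    (∀ h : ℕ, ∃ C : ℕ, ∀ E : Submodule (algebraicClosure ℚ ℂ) ℂ,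
      FiniteDimensional (algebraicClosure ℚ ℂ) E → finrank (algebraicClosure ℚ ℂ) E ≤ h →
      ∀ B : ℕ, 16 ≤ B →
        ({I : Ideal (𝓞 K) | (I ≠ ⊥ ∧ Ideal.absNorm I ≤ B) ∧
          ∃ l ∈ Log I, ∃ θ ∈ E, θ ≠ 0 ∧ ∃ t : ℂ,
            (IsAlgebraic ℚ (Complex.exp (t * θ)) ∧ IsAlgebraic ℚ (Complex.exp (t * l)) ∧
              ¬ ∃ q : ℚ, (q : ℂ) = t) ∨
            (t * θ ∈ L ∧ t * l ∈ L ∧ ¬ IsAlgebraic ℚ t)}.ncard : ℝ) ≤
          C * Real.log (Real.log B) ^ C / Real.log B * B) ∧
    (∀ r n : ℕ, r < n → ∃ C : ℕ, ∀ B : ℕ, 16 ≤ B →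
      ({I : Fin r → Fin n → Ideal (𝓞 K) | (∀ i j, I i j ≠ ⊥ ∧ Ideal.absNorm (I i j) ≤ B) ∧
        ∃ l : Fin r → Fin n → ℂ, (∀ i j, l i j ∈ Log (I i j)) ∧
          ∃ z : Fin n → ℂ, (∀ j, z j ∈ L) ∧ ¬ LinearIndependent ℂ (Matrix.vecCons z l) ∧
            ¬ ∃ a : Fin r → algebraicClosure ℚ ℂ, ∀ j, z j = ∑ i, (a i : ℂ) * l i j}.ncard : ℝ) ≤
        C * Real.log (Real.log B) ^ C / Real.log B * B ^ (r * n)) ∧
    ∀ n D h : ℕ, ∃ C : ℕ, ∀ E : Submodule (algebraicClosure ℚ ℂ) ℂ,
      FiniteDimensional (algebraicClosure ℚ ℂ) E → finrank (algebraicClosure ℚ ℂ) E ≤ h →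
      ∀ B : ℕ, 16 ≤ B →
        ({I : Fin n → Ideal (𝓞 K) | (∀ i, I i ≠ ⊥ ∧ Ideal.absNorm (I i) ≤ B) ∧
          ∃ l y : Fin n → ℂ, (∀ i, l i ∈ Log (I i)) ∧
            (∀ i, ∃ q : algebraicClosure ℚ ℂ, q ≠ 0 ∧ y i - q * l i ∈ E) ∧
            ∃ A ≤ E, ∃ F : MvPolynomial (Fin n) ℂ, F.totalDegree ≤ D ∧
              (∀ m, F.coeff m ∈ E ⊔ A * L) ∧ eval y F = 0 ∧
              ¬ ∃ G : Fin n → MvPolynomial (Fin n) ℂ, (∀ i m, (G i).coeff m ∈ A) ∧
                (∀ i, ∀ a ∈ (G i).support, ∀ j, a j ≤ D) ∧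
                F = ∑ i, (X i - MvPolynomial.C (y i)) * G i}.ncard : ℝ) ≤
          C * Real.log (Real.log B) ^ C / Real.log B * B ^ n := by
  obtain rfl : Log = fun I => {l | MP60829e.ZK.IsLog K σ I l} := funext hLog
  subst hL
  refine ⟨MP60829e.ZK.ideals_four K σ, fun r n h => MP60829e.ZK.ideals_rows K σ h, fun n D h => ?_⟩
  obtain ⟨C, hC⟩ := MP60829e.ZK.ideals_many K σ n D h
  refine ⟨C, fun E h1 h2 B hB => le_trans (le_of_eq ?_) (hC E h1 h2 B hB)⟩
  congr 2
  ext I
  unfold MP60829e.ZK.GoodN MP60829e.ZL.Comb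
  simp only [Set.mem_ofPred_eq, not_forall, exists_prop]
  exact Iff.rfl

end MP60829e.Old.FourExponentialsK
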