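import Pool.Agent.Lib.MP_60829e_nt.ZL.Out
import Pool.Agent.Lib.MP_60829e_nt.ZL.Det

/-! # Four exponentials, and relations with arbitrary logarithms as coefficients, for almost all
integers

`L` is the span over the algebraic numbers of `1` and all logarithms of algebraic numbers. Almost
all tuples of integers means: all but at most `K * (log log B) ^ K / log B * B ^ n` of the tuples in
`{1, …, B} ^ n`, with a constant `K` which does not depend on `E` or on `B`. -/

open Module MvPolynomial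

namespace MP60829e.Old.FourExponentialsQ

/-- `L` is the span over the algebraic numbers of `1` and all logarithms of algebraic numbers.
(1) Let `E` be a finite-dimensional space over the algebraic numbers. Then almost all integers `b`
satisfy, for all nonzero `θ` in `E` and all `t` at once: if `exp (t * θ)` and `b ^ t` are algebraic,
then `t` is rational (four exponentials); if `t * θ` and `t * log b` are in `L`, then `t` is algebraic
(strong four exponentials).
(2) For `r < n` and almost all integer matrices `b` of size `r * n`: for every row `l` with entries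
in `L` which is not a linear combination of the rows `log (b i j)` over the algebraic numbers, `l` and
these `r` rows are linearly independent over the complex numbers.
(3) For almost all tuples `b`: let `y i` be in `q i * log (b i) + E`, `A` a subspace of `E` and `F` a
polynomial of degree at most `D` with coefficients in `E + A * L` and `F y = 0`. Then
`F = ∑ (X i - y i) * G i` with coefficients of the `G i` in `A`. -/
theorem result (L : Submodule (algebraicClosure ℚ ℂ) ℂ)
    (hL : L = Submodule.span (algebraicClosure ℚ ℂ) ({1} ∪ {z | IsAlgebraic ℚ (Complex.exp z)})) :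
    (∀ h : ℕ, ∃ K : ℕ, ∀ E : Submodule (algebraicClosure ℚ ℂ) ℂ,
      FiniteDimensional (algebraicClosure ℚ ℂ) E → finrank (algebraicClosure ℚ ℂ) E ≤ h →
      ∀ B : ℕ, 16 ≤ B →
        ({b : ℕ | 1 ≤ b ∧ b ≤ B ∧ ∃ θ ∈ E, θ ≠ 0 ∧ ∃ t : ℂ,
          (IsAlgebraic ℚ (Complex.exp (t * θ)) ∧
              IsAlgebraic ℚ (Complex.exp (t * (Real.log b : ℝ))) ∧ ¬ ∃ q : ℚ, (q : ℂ) = t) ∨
            (t * θ ∈ L ∧ t * (Real.log b : ℝ) ∈ L ∧ ¬ IsAlgebraic ℚ t)}.ncard : ℝ) ≤
          K * Real.log (Real.log B) ^ K / Real.log B * B) ∧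
    (∀ r n : ℕ, r < n → ∃ K : ℕ, ∀ B : ℕ, 16 ≤ B →
      ({b : Fin r → Fin n → ℕ | (∀ i j, 1 ≤ b i j ∧ b i j ≤ B) ∧
        ∃ l : Fin n → ℂ, (∀ j, l j ∈ L) ∧
          ¬ LinearIndependent ℂ (Matrix.vecCons l fun i j => ((Real.log (b i j) : ℝ) : ℂ)) ∧
          ¬ ∃ a : Fin r → algebraicClosure ℚ ℂ,
            ∀ j, l j = ∑ i, (a i : ℂ) * ((Real.log (b i j) : ℝ) : ℂ)}.ncard : ℝ) ≤
        K * Real.log (Real.log B) ^ K / Real.log B * B ^ (r * n)) ∧
    ∀ n D κ : ℕ, ∃ K : ℕ, ∀ E : Submodule (algebraicClosure ℚ ℂ) ℂ,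
      FiniteDimensional (algebraicClosure ℚ ℂ) E → finrank (algebraicClosure ℚ ℂ) E ≤ κ →
      ∀ B : ℕ, 16 ≤ B →
        ({b : Fin n → ℕ | (∀ i, 1 ≤ b i ∧ b i ≤ B) ∧
          ∃ (y : Fin n → ℂ) (A : Submodule (algebraicClosure ℚ ℂ) ℂ) (F : MvPolynomial (Fin n) ℂ),
            (∀ i, ∃ q : algebraicClosure ℚ ℂ, q ≠ 0 ∧ y i - q * (Real.log (b i) : ℝ) ∈ E) ∧
            A ≤ E ∧ F.totalDegree ≤ D ∧ (∀ m, F.coeff m ∈ E ⊔ A * L) ∧ eval y F = 0 ∧
            ¬ ∃ G : Fin n → MvPolynomial (Fin n) ℂ, (∀ i m, (G i).coeff m ∈ A) ∧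
              (∀ i, ∀ a ∈ (G i).support, ∀ j, a j ≤ D) ∧
              F = ∑ i, (X i - C (y i)) * G i}.ncard : ℝ) ≤
          K * Real.log (Real.log B) ^ K / Real.log B * B ^ n := by
  subst hL
  exact ⟨MP60829e.ZL.exponentials, fun _ _ h => MP60829e.ZL.rows h, MP60829e.ZL.general⟩

end MP60829e.Old.FourExponentialsQ
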