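import Pool.Agent.Lib.MP_60829e_nt.GMain

/-!
General position for logarithms of algebraic numbers: numbers built from many logarithms by a generic
algebraic (for instance rational) matrix satisfy no algebraic relation of degree at most `D`.
-/

namespace Pool.Agent.Results.MP_60829e_nt.GeneralPosition

theorem result (k n d D : ℕ) (v : Fin k → ℂ)
    (hv : ∀ f : MvPolynomial (Fin k) (algebraicClosure ℚ ℂ), f.totalDegree ≤ D →
      MvPolynomial.aeval v f = 0 → f = 0)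
    (ρ : Fin n → ℂ) (ω : Fin d → ℂ) (hω : ∀ j, IsAlgebraic ℚ (Complex.exp (ω j)))
    (hd : (LinearIndependent ℚ ω ∧ (k + n - 1 + D).choose D ≤ d) ∨
      ((∀ i, IsAlgebraic ℚ (Complex.exp (v i))) ∧ LinearIndependent ℚ (Sum.elim v ω) ∧
        (k + n - 1 + D).choose D ≤ k + d)) :
    ∃ Φ : MvPolynomial (Fin n × Fin d) (algebraicClosure ℚ ℂ),
      Φ ≠ 0 ∧ Φ.totalDegree ≤ D * (k + n + D).choose D ∧
      ∀ M : Fin n × Fin d → algebraicClosure ℚ ℂ, MvPolynomial.eval M Φ ≠ 0 →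
        ∀ f : MvPolynomial (Fin k ⊕ Fin n) (algebraicClosure ℚ ℂ), f.totalDegree ≤ D →
          MvPolynomial.aeval (Sum.elim v (fun i => ρ i + ∑ j, (M (i, j) : ℂ) * ω j)) f = 0 → f = 0 := by
  obtain ⟨Φ, h1, h2, h3⟩ :=
    Pool.Agent.Lib.MP_60829e_nt.Gen.general_position k n d D v hv ρ ω hω hd
  exact ⟨Φ, h1, h2, h3⟩

end Pool.Agent.Results.MP_60829e_nt.GeneralPosition
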