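import Pool.Agent.Lib.MP_60829e_nt.SK.Branch

/-! MP_60829e_nt: Baker's theorem together with all nonlinear monomials in `log b 1, .., log b n`, for
100 percent of the tuples `b` of positive integers. -/

namespace Pool.Agent.Results.MP_60829e_nt.NonlinearBaker

open Module

/-- For all but few `b` in `{1, .., B} ^ n`: if `y i` is in `q i * log (b i) + Λ` for a nonzero
`q i` in the field `F` of algebraic numbers, `f` has degree at most `D` and coefficients in `A`, and
`f(y)` is a linear form with coefficients in `F` in `1` and logarithms of algebraic numbers, then `f`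
is a constant plus a linear form with coefficients in `F`. -/
theorem result (n D k : ℕ) : ∃ K : ℕ, ∀ F : IntermediateField ℚ ℂ, Algebra.IsAlgebraic ℚ F →
    ∀ A Λ : Submodule F ℂ, FiniteDimensional F A → FiniteDimensional F Λ →
    finrank F A ≤ k → finrank F Λ ≤ k → ∀ B : ℕ, 16 ≤ B →
      ({b : Fin n → ℕ | (∀ i, 1 ≤ b i ∧ b i ≤ B) ∧
        ∃ (y : Fin n → ℂ) (f : MvPolynomial (Fin n) ℂ),
          (∀ i, ∃ q : F, q ≠ 0 ∧ y i - q * ((Real.log (b i) : ℝ) : ℂ) ∈ Λ) ∧
          f.totalDegree ≤ D ∧ (∀ m, f.coeff m ∈ A) ∧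
          MvPolynomial.eval y f ∈
            Submodule.span F (insert 1 {z : ℂ | IsAlgebraic ℚ (Complex.exp z)}) ∧
          ¬ ∃ (c : ℂ) (r : Fin n → F), f = MvPolynomial.C c +
            ∑ i, MvPolynomial.C (r i : ℂ) * MvPolynomial.X i}.ncard : ℝ) ≤
        K * Real.log (Real.log B) ^ K / Real.log B * B ^ n := by
  obtain ⟨K, hK⟩ := MP60829e.SK.final' n D k
  exact ⟨K, fun F hF A Λ h1 h2 h3 h4 B hB => hK F hF A Λ h1 h2 h3 h4 B hB⟩

end Pool.Agent.Results.MP_60829e_nt.NonlinearBaker
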