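import Mathlib
import Pool.Agent.Lib.MP_60829e_nt.CBaker
import Pool.Agent.Lib.MP_60829e_nt.PS.SFinite
import Pool.Agent.Lib.MP_60829e_nt.PS.SZero

namespace Pool.Agent.Results.MP_60829e_nt.PairStructure

open MvPolynomial

/-- `x` and `y` are algebraically dependent: some nonzero polynomial in two variables with
algebraic coefficients vanishes at `(x, y)`. -/
def Dep (x y : ℂ) : Prop :=
  ∃ f : MvPolynomial (Fin 2) (algebraicClosure ℚ ℂ), f ≠ 0 ∧ aeval ![x, y] f = 0

/-- Let `l` be logarithms of algebraic numbers, linearly independent over `ℚ`, and `E` their span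
over the field of algebraic numbers. -/
theorem result :
    ∀ (n : ℕ) (l : Fin n → ℂ), (∀ i, IsAlgebraic ℚ (Complex.exp (l i))) →
      LinearIndependent ℚ l →
      ∀ E : Submodule (algebraicClosure ℚ ℂ) ℂ,
        E = Submodule.span (algebraicClosure ℚ ℂ) (Set.range l) →
        (∃ C : ℕ, ∀ x ∈ E, ∀ y ∈ E, Dep x y →
          ∃ f : MvPolynomial (Fin 2) (algebraicClosure ℚ ℂ),
            f ≠ 0 ∧ f.totalDegree ≤ C ∧ aeval ![x, y] f = 0) ∧
        (∃ 𝒱 : Set (Submodule (algebraicClosure ℚ ℂ) ℂ), 𝒱.Finite ∧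
          (∀ V ∈ 𝒱, V ≤ E ∧ ∀ x ∈ V, ∀ y ∈ V, Dep x y) ∧
          ∀ x ∈ E, ∀ y ∈ E, Dep x y →
            (∃ V ∈ 𝒱, x ∈ V ∧ y ∈ V) ∨
            ∃ (u : ℂ) (P R : Polynomial (algebraicClosure ℚ ℂ)),
              x = Polynomial.aeval u P ∧ y = Polynomial.aeval u R) ∧
        ((∀ x ∈ E, ∀ y ∈ E, Dep x y) ∨
          ∃ G : MvPolynomial (Fin n) (algebraicClosure ℚ ℂ), G ≠ 0 ∧
            ∀ c : Fin n → algebraicClosure ℚ ℂ, eval c G ≠ 0 →
              ∀ y ∈ E, Dep (∑ i, (c i : ℂ) * l i) y →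
                ∃ a : algebraicClosure ℚ ℂ, y = (a : ℂ) * ∑ i, (c i : ℂ) * l i) := by
  intro n l hlog hli E hE
  have hclosed : IsAlgClosed (algebraicClosure ℚ ℂ) :=
    (algebraicClosure.isAlgClosure ℚ ℂ).isAlgClosed
  have halg : ∀ c : algebraicClosure ℚ ℂ, IsAlgebraic ℚ (algebraMap (algebraicClosure ℚ ℂ) ℂ c) :=
    fun c => mem_algebraicClosure_iff.mp c.2
  have hli' : LinearIndependent (algebraicClosure ℚ ℂ) (Fin.cons (1 : ℂ) l : Fin (n + 1) → ℂ) := by
    rw [Fintype.linearIndependent_iff]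
    intro g hg
    rw [Fin.sum_univ_succ] at hg
    simp only [Fin.cons_zero, Fin.cons_succ] at hg
    have h1 := Pool.Agent.Lib.MP_60829e_nt.Bk.baker (I := Fin n) l hlog hli
      (algebraMap (algebraicClosure ℚ ℂ) ℂ (g 0)) (halg _)
      (fun i => algebraMap (algebraicClosure ℚ ℂ) ℂ (g i.succ)) (fun i => halg _) (by
        rw [← hg]
        congr 1
        · rw [Algebra.smul_def, mul_one]
        · refine Finset.sum_congr rfl fun i _ => ?_
          rw [Algebra.smul_def, mul_comm])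
    intro i
    refine Fin.cases ?_ (fun j => ?_) i
    · exact (map_eq_zero (algebraMap (algebraicClosure ℚ ℂ) ℂ)).mp h1.1
    · exact (map_eq_zero (algebraMap (algebraicClosure ℚ ℂ) ℂ)).mp (h1.2 j)
  subst hE
  refine ⟨?_, ?_, ?_⟩
  · have : FiniteDimensional (algebraicClosure ℚ ℂ)
        (Submodule.span (algebraicClosure ℚ ℂ) (Set.range l)) :=
      FiniteDimensional.span_of_finite _ (Set.finite_range l)
    obtain ⟨C, -, hC⟩ := MP60829e.PS.degree_bound
      (Submodule.span (algebraicClosure ℚ ℂ) (Set.range l))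
    exact ⟨C, hC⟩
  · exact MP60829e.PS.finite_classes l hli'
  · exact MP60829e.PS.zero_one l hli'

end Pool.Agent.Results.MP_60829e_nt.PairStructure
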