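import Pool.Agent.Lib.MP_60829e_nt.CBaker
import Pool.Agent.Lib.MP_60829e_nt.TL.Rel

namespace Pool.Agent.Results.MP_60829e_nt.RelativeTupleLaw

open MvPolynomial

/-- Let `l` be logarithms of algebraic numbers, linearly independent over `ℚ`, and `E` their span
over the field of algebraic numbers. Let `F` be any field between the field of algebraic numbers
and `ℂ`, and `E₀` the space of the elements of `E` which are algebraic over `F` (it is `0` if `F`
is the field of algebraic numbers). For every `m`, either any `m + 1` elements of `E` are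
algebraically dependent over `F`, or there is a nonzero polynomial `G` in the entries of the
`m` by `n` matrices `c` of algebraic numbers, homogeneous of degree `n - m - dim E₀` in the entries
of each row, such that `G (c) ≠ 0` implies: if `x k` is `∑ j, c (k, j) * l j` plus a number
algebraic over `F`, and `y` is an element of `E` plus a number algebraic over `F`, but not a linear
combination of the `x k` plus a number algebraic over `F`, then `y, x 0, …, x (m - 1)` are
algebraically independent over `F`. Among the matrices with entries in a finite set `S` at most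
`m (n - m) |S| ^ (m n - 1)` are zeros of `G`. -/
theorem result :
    ∀ (n : ℕ) (l : Fin n → ℂ), (∀ i, IsAlgebraic ℚ (Complex.exp (l i))) →
      LinearIndependent ℚ l →
      ∀ E : Submodule (algebraicClosure ℚ ℂ) ℂ,
        E = Submodule.span (algebraicClosure ℚ ℂ) (Set.range l) →
        ∀ (F : IntermediateField (algebraicClosure ℚ ℂ) ℂ)
          (E₀ : Submodule (algebraicClosure ℚ ℂ) ℂ),
          (∀ z, z ∈ E₀ ↔ z ∈ E ∧ IsAlgebraic F z) →
          (F = ⊥ → E₀ = ⊥) ∧
          ∀ m : ℕ,
            (∀ x : Fin (m + 1) → ℂ, (∀ i, x i ∈ E) → ¬ AlgebraicIndependent F x) ∨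
            ∃ G : MvPolynomial (Fin m × Fin n) (algebraicClosure ℚ ℂ), G ≠ 0 ∧
              (∀ d ∈ G.support, ∀ k : Fin m,
                (∑ j, d (k, j)) + m + Module.finrank (algebraicClosure ℚ ℂ) E₀ = n) ∧
              (∀ S : Finset (algebraicClosure ℚ ℂ),
                {c : Fin m × Fin n → algebraicClosure ℚ ℂ |
                  (∀ i, c i ∈ S) ∧ eval c G = 0}.ncard * S.card ≤
                    m * (n - m) * S.card ^ (m * n)) ∧
              ∀ c : Fin m × Fin n → algebraicClosure ℚ ℂ, eval c G ≠ 0 →
                ∀ (x : Fin m → ℂ) (y : ℂ),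
                  (∀ k, IsAlgebraic F (x k - ∑ j, (c (k, j) : ℂ) * l j)) →
                  (∃ z ∈ E, IsAlgebraic F (y - z)) →
                  (∀ z ∈ Submodule.span (algebraicClosure ℚ ℂ) (Set.range x),
                    ¬ IsAlgebraic F (y - z)) →
                  AlgebraicIndependent F (Fin.cons y x : Fin (m + 1) → ℂ) := by
  classical
  intro n l hlog hli E hE F E₀ hE₀
  have hclosed : IsAlgClosed (algebraicClosure ℚ ℂ) :=
    (algebraicClosure.isAlgClosure ℚ ℂ).isAlgClosed
  have halg : ∀ c : algebraicClosure ℚ ℂ, IsAlgebraic ℚ (algebraMap (algebraicClosure ℚ ℂ) ℂ c) :=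
    fun c => mem_algebraicClosure_iff.mp c.2
  have hbaker : ∀ (c₀ : algebraicClosure ℚ ℂ) (c : Fin n → algebraicClosure ℚ ℂ),
      (c₀ : ℂ) + ∑ j, c j • l j = 0 → c₀ = 0 ∧ c = 0 := by
    intro c₀ c hc
    have h1 := Pool.Agent.Lib.MP_60829e_nt.Bk.baker (I := Fin n) l hlog hli
      (algebraMap (algebraicClosure ℚ ℂ) ℂ c₀) (halg _)
      (fun i => algebraMap (algebraicClosure ℚ ℂ) ℂ (c i)) (fun i => halg _) (by
        rw [← hc]
        congr 1
        refine Finset.sum_congr rfl fun i _ => ?_
        rw [Algebra.smul_def, mul_comm])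
    refine ⟨(map_eq_zero (algebraMap (algebraicClosure ℚ ℂ) ℂ)).mp h1.1, ?_⟩
    funext j
    exact (map_eq_zero (algebraMap (algebraicClosure ℚ ℂ) ℂ)).mp (h1.2 j)
  have hli' : LinearIndependent (algebraicClosure ℚ ℂ) l := by
    rw [Fintype.linearIndependent_iff]
    intro g hg i
    have := (hbaker 0 g (by rw [hg]; simp)).2
    rw [this, Pi.zero_apply]
  constructor
  · rintro rfl
    rw [eq_bot_iff]
    intro z hz
    obtain ⟨hzE, hzalg⟩ := (hE₀ z).mp hz
    have hz0 : IsAlgebraic (algebraicClosure ℚ ℂ) z := by
      have e : (⊥ : IntermediateField (algebraicClosure ℚ ℂ) ℂ) ≃ₐ[algebraicClosure ℚ ℂ]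
        (algebraicClosure ℚ ℂ) := IntermediateField.botEquiv _ _
      have hb : Algebra.IsAlgebraic (algebraicClosure ℚ ℂ)
        (⊥ : IntermediateField (algebraicClosure ℚ ℂ) ℂ) :=
        e.symm.isAlgebraic
      exact IsAlgebraic.restrictScalars (algebraicClosure ℚ ℂ) hzalg
    have hzmem : z ∈ Set.range (algebraMap (algebraicClosure ℚ ℂ) ℂ) := by
      have := minpoly.mem_range_of_degree_eq_one (algebraicClosure ℚ ℂ) z
        (IsAlgClosed.degree_eq_one_of_irreducible _ (minpoly.irreducible hz0.isIntegral))
      simpa using this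
    obtain ⟨a, rfl⟩ := hzmem
    rw [hE] at hzE
    obtain ⟨b, hb⟩ := (Submodule.mem_span_range_iff_exists_fun (algebraicClosure ℚ ℂ)).mp hzE
    have h2 := (hbaker (-a) b (by
      rw [hb]
      push_cast
      exact neg_add_cancel _)).1
    rw [neg_eq_zero] at h2
    rw [h2, map_zero]
    exact Submodule.zero_mem _
  · intro m
    rcases MP60829e.TL.tuple_law_rel l hli' E E₀ hE hE₀ m with h | ⟨G, hG0, hGd, hG⟩
    · exact Or.inl h
    · refine Or.inr ⟨G, hG0, hGd, ?_, fun c hc x y hx hy hyn => hG c hc x y (fun k => ?_) hy hyn⟩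
      · intro S
        have h1 := MP60829e.TL.card_zeros_le G hG0 S
        have h2 : {c : Fin m × Fin n → algebraicClosure ℚ ℂ |
            (∀ i, c i ∈ S) ∧ eval c G = 0} =
            ↑((Fintype.piFinset fun _ : Fin m × Fin n => S).filter fun c => eval c G = 0) := by
          ext c
          simp [Fintype.mem_piFinset]
        rw [h2, Set.ncard_coe_finset]
        refine h1.trans ?_
        have h3 : Fintype.card (Fin m × Fin n) = m * n := by simp
        rw [h3]
        refine Nat.mul_le_mul_right _ ?_
        refine (MP60829e.TL.totalDegree_le_of_rows (r := n - m -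
          Module.finrank (algebraicClosure ℚ ℂ) E₀) G ?_).trans ?_
        · intro d hd k
          have := hGd d hd k
          omega
        · exact Nat.mul_le_mul_left _ (Nat.sub_le _ _)
      · have h4 : ∑ j, c (k, j) • l j = ∑ j, (c (k, j) : ℂ) * l j := by
          refine Finset.sum_congr rfl fun j _ => ?_
          rw [Algebra.smul_def]
          rfl
        rw [h4]
        exact hx k

end Pool.Agent.Results.MP_60829e_nt.RelativeTupleLaw
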