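import Mathlib
import Pool.Agent.Lib.MP_60829e_nt.CBaker
import Pool.Agent.Lib.MP_60829e_nt.S.RatPlanes

namespace Pool.Agent.Results.MP_60829e_nt.SmoothRelations

open MvPolynomial

/-- Let `W` be a finite-dimensional `ℚ`-vector space of logarithms of algebraic numbers. Only
finitely many of the planes `V ≤ W` have a basis `l` satisfying some polynomial relation
`F (l 0, l 1) = 0` with algebraic coefficients, of any degree at least two, whose leading form is
squarefree and whose affine curve has no singular point. -/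
theorem result :
    ∀ W : Submodule ℚ ℂ, FiniteDimensional ℚ W → (∀ w ∈ W, IsAlgebraic ℚ (Complex.exp w)) →
      {V : Submodule ℚ ℂ | V ≤ W ∧ ∃ l : Fin 2 → ℂ, LinearIndependent ℚ l ∧
        V = Submodule.span ℚ (Set.range l) ∧
        ∃ F : MvPolynomial (Fin 2) (algebraicClosure ℚ ℂ), 2 ≤ F.totalDegree ∧
          Squarefree (homogeneousComponent F.totalDegree F) ∧
          (∀ a : Fin 2 → algebraicClosure ℚ ℂ, eval a F = 0 → ∃ i, eval a (pderiv i F) ≠ 0) ∧
          aeval l F = 0}.Finite := by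
  intro W hW hlog
  have hclosed : IsAlgClosed (algebraicClosure ℚ ℂ) :=
    (algebraicClosure.isAlgClosure ℚ ℂ).isAlgClosed
  have halg : ∀ c : algebraicClosure ℚ ℂ, IsAlgebraic ℚ (algebraMap (algebraicClosure ℚ ℂ) ℂ c) :=
    fun c => mem_algebraicClosure_iff.mp c.2
  have h := MP60829e.S.rat_planes (k := algebraicClosure ℚ ℂ) (K := ℂ) W ?_ ?_
  · refine h.subset ?_
    rintro V ⟨hV, l, hl, hVl, F, h2, hsq, hsm, hF⟩
    exact ⟨hV, l, hl, hVl, F, ⟨h2, hsq, hsm⟩, hF⟩
  · rintro z hz hz0 ⟨c, rfl⟩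
    have h1 := Pool.Agent.Lib.MP_60829e_nt.Bk.baker (I := Unit)
      (fun _ => algebraMap (algebraicClosure ℚ ℂ) ℂ c) (fun _ => hlog _ hz)
      (by
        rw [linearIndependent_unique_iff]
        exact hz0)
      (algebraMap (algebraicClosure ℚ ℂ) ℂ c) (halg c) (fun _ => -1)
      (fun _ => isAlgebraic_one.neg) (by simp)
    exact hz0 h1.1
  · intro l hl hli c b hb
    have h1 := Pool.Agent.Lib.MP_60829e_nt.Bk.baker (I := Fin 3) l (fun i => hlog _ (hl i)) hli
      (algebraMap (algebraicClosure ℚ ℂ) ℂ c) (halg c)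
      (fun i => algebraMap (algebraicClosure ℚ ℂ) ℂ (b i)) (fun i => halg (b i)) (by
        rw [← hb]
        congr 1
        refine Finset.sum_congr rfl fun i _ => ?_
        rw [Algebra.smul_def, mul_comm])
    intro i
    have h2 := h1.2 i
    exact (map_eq_zero (algebraMap (algebraicClosure ℚ ℂ) ℂ)).mp h2

end Pool.Agent.Results.MP_60829e_nt.SmoothRelations
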