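import Pool.Agent.Lib.MP_60829e_nt.MFinal

/-!
The linear combinations of logarithms of algebraic numbers that satisfy a relation of bounded degree
together with given algebraically independent numbers form a finite union of subspaces of bounded
dimension.
-/

namespace Pool.Agent.Results.MP_60829e_nt.SubspaceUnion

theorem result (k D : ℕ) (hk : 0 < k) (v : Fin k → ℂ)
    (hv : AlgebraicIndependent (algebraicClosure ℚ ℂ) v)
    (E : Submodule (algebraicClosure ℚ ℂ) ℂ) [FiniteDimensional (algebraicClosure ℚ ℂ) E]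
    (hE : E ≤ Submodule.span (algebraicClosure ℚ ℂ) {l : ℂ | IsAlgebraic ℚ (Complex.exp l)}) :
    ∃ 𝒰 : Finset (Submodule (algebraicClosure ℚ ℂ) ℂ),
      𝒰.card ≤ (k + D).choose D *
        (D * (k + 1 + D).choose D) ^ Module.finrank (algebraicClosure ℚ ℂ) E ∧
      (∀ U ∈ 𝒰, U ≤ E ∧
        Module.finrank (algebraicClosure ℚ ℂ) U < (k + D).choose D ∧
        Module.finrank (algebraicClosure ℚ ℂ)
          (U ⊔ Submodule.span (algebraicClosure ℚ ℂ) (insert 1 (Set.range v)) :
            Submodule (algebraicClosure ℚ ℂ) ℂ) ≤ (k + D).choose D) ∧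
      ∀ w ∈ E, (∃ f : MvPolynomial (Option (Fin k)) (algebraicClosure ℚ ℂ),
          f ≠ 0 ∧ f.totalDegree ≤ D ∧
          MvPolynomial.aeval (fun o : Option (Fin k) => o.elim w v) f = 0) ↔
        ∃ U ∈ 𝒰, w ∈ U :=
  Pool.Agent.Lib.MP_60829e_nt.ML.ml k D hk v hv E
    (fun h => Pool.Agent.Lib.MP_60829e_nt.ML.one_notMem (hE h))

end Pool.Agent.Results.MP_60829e_nt.SubspaceUnion
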