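import Pool.Agent.Lib.MP_60829e_nt.TW.Thin

/-! MP_60829e_nt: in every group of logarithms, and in every translate of it, the tuples at which
some nonlinear polynomial with few terms, even of large degree, takes a value that is a linear form
in logarithms are rare. -/

open Module

namespace Pool.Agent.Results.MP_60829e_nt.ThinExceptions

/-- `𝕜` is a field of algebraic numbers, the `t i j` are linear forms in logarithms of algebraic
numbers, for each `i` linearly independent over `𝕜`, the `u i` are any complex numbers, `A` is a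
space of coefficients of dimension at most `κ`.  For all but few matrices `c` with entries in the
finite set `S` the only polynomials `f` in `n` variables with at most `N` terms, degree at most `D`
and coefficients in `A` whose value at the point with coordinates `u i + ∑ j, c i j * t i j` is a
linear form in `1` and logarithms of algebraic numbers with coefficients in `𝕜` are the
`a + ∑ q i * X i` with `q i` in `𝕜`. -/
theorem result (n r N κ : ℕ) : ∃ K : ℕ, ∀ (𝕜 : IntermediateField ℚ ℂ),
    Algebra.IsAlgebraic ℚ 𝕜 → ∀ (u : Fin n → ℂ) (t : Fin n → Fin r → ℂ),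
    (∀ i j, t i j ∈ Submodule.span 𝕜 {z : ℂ | IsAlgebraic ℚ (Complex.exp z)}) →
    (∀ i, LinearIndependent 𝕜 (t i)) →
    ∀ A : Submodule 𝕜 ℂ, FiniteDimensional 𝕜 A → finrank 𝕜 A ≤ κ →
    ∀ S : Finset 𝕜, S.Nonempty → ∀ D : ℕ,
    ({c : Fin n → Fin r → 𝕜 | (∀ i j, c i j ∈ S) ∧ ∃ f : MvPolynomial (Fin n) ℂ,
        f.totalDegree ≤ D ∧ f.support.card ≤ N ∧ (∀ m, MvPolynomial.coeff m f ∈ A) ∧
        MvPolynomial.eval (fun i => u i + ∑ j, (c i j : ℂ) * t i j) f ∈
          Submodule.span 𝕜 ({1} ∪ {z : ℂ | IsAlgebraic ℚ (Complex.exp z)}) ∧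
        ¬ ∃ (a : ℂ) (q : Fin n → 𝕜), f = MvPolynomial.C a +
          ∑ i, MvPolynomial.C (q i : ℂ) * MvPolynomial.X i}.ncard : ℝ) ≤
      K * D ^ (n * (N + 1)) * ((D : ℝ) / S.card) ^ (r - (κ * N + 6)) * S.card ^ (n * r) :=
  MP60829e.TW.thin_affine n r N κ

end Pool.Agent.Results.MP_60829e_nt.ThinExceptions
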