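import Pool.Agent.Lib.MP_60829e_nt.SE.Branch

/-! MP_60829e_nt: for 100 percent of the tuples of positive integers no nonlinear polynomial of
degree at most `D` with coefficients in a given finite-dimensional `ℚ`-space (for instance in a
number field) takes at their logarithms a value which is a logarithm of an algebraic number. -/

namespace Pool.Agent.Results.MP_60829e_nt.TranscendentalValues

open Module

/-- For all but few `b` in `{1, .., B} ^ n`: if `y i` is in `q i * log (b i) + Λ` for a nonzero
rational `q i`, `f` has degree at most `D` and coefficients in `A`, and `e ^ f(y)` is algebraic,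
then `f` is a constant plus a rational linear combination of the variables. -/
theorem result (n D k : ℕ) : ∃ K : ℕ, ∀ (A Λ : Submodule ℚ ℂ), FiniteDimensional ℚ A →
    FiniteDimensional ℚ Λ → finrank ℚ A ≤ k → finrank ℚ Λ ≤ k → ∀ B : ℕ, 16 ≤ B →
      ({b : Fin n → ℕ | (∀ i, 1 ≤ b i ∧ b i ≤ B) ∧
        ∃ (y : Fin n → ℂ) (f : MvPolynomial (Fin n) ℂ),
          (∀ i, ∃ q : ℚ, q ≠ 0 ∧ y i - q * ((Real.log (b i) : ℝ) : ℂ) ∈ Λ) ∧
          f.totalDegree ≤ D ∧ (∀ m, f.coeff m ∈ A) ∧
          IsAlgebraic ℚ (Complex.exp (MvPolynomial.eval y f)) ∧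
          ¬ ∃ (c : ℂ) (r : Fin n → ℚ), f = MvPolynomial.C c +
            ∑ i, MvPolynomial.C (r i : ℂ) * MvPolynomial.X i}.ncard : ℝ) ≤
        K * Real.log (Real.log B) ^ K / Real.log B * B ^ n :=
  MP60829e.SE.final' n D k

end Pool.Agent.Results.MP_60829e_nt.TranscendentalValues
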