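import Pool.Agent.Lib.MP_60829e_nt.CBaker
import Pool.Agent.Lib.MP_60829e_nt.TL.Main

namespace Pool.Agent.Results.MP_60829e_nt.TupleLaw

open MvPolynomial

/-- Let `l` be logarithms of algebraic numbers, linearly independent over `ℚ`, and `E` their span
over the field of algebraic numbers. For every `m`, either any `m + 1` elements of `E` are
algebraically dependent, or, for all `m`-tuples `x` in `E` whose coefficients `c` are not a zero of
a certain nonzero polynomial `G`, homogeneous of degree `n - m` in the coefficients of each `x k`,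
the numbers `y, x 0, …, x (m - 1)` are algebraically independent for every `y` in `E` which is not a
linear combination of the `x k`. -/
theorem result :
    ∀ (n : ℕ) (l : Fin n → ℂ), (∀ i, IsAlgebraic ℚ (Complex.exp (l i))) →
      LinearIndependent ℚ l →
      ∀ E : Submodule (algebraicClosure ℚ ℂ) ℂ,
        E = Submodule.span (algebraicClosure ℚ ℂ) (Set.range l) →
        ∀ m : ℕ,
          (∀ x : Fin (m + 1) → ℂ, (∀ i, x i ∈ E) →
            ¬ AlgebraicIndependent (algebraicClosure ℚ ℂ) x) ∨
          ∃ G : MvPolynomial (Fin m × Fin n) (algebraicClosure ℚ ℂ), G ≠ 0 ∧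
            (∀ d ∈ G.support, ∀ k : Fin m, (∑ j, d (k, j)) + m = n) ∧
            ∀ (c : Fin m × Fin n → algebraicClosure ℚ ℂ) (x : Fin m → ℂ),
              (∀ k, x k = ∑ j, (c (k, j) : ℂ) * l j) → eval c G ≠ 0 →
              ∀ y ∈ E, y ∉ Submodule.span (algebraicClosure ℚ ℂ) (Set.range x) →
                AlgebraicIndependent (algebraicClosure ℚ ℂ) (Fin.cons y x : Fin (m + 1) → ℂ) := by
  intro n l hlog hli E hE m
  have hclosed : IsAlgClosed (algebraicClosure ℚ ℂ) :=
    (algebraicClosure.isAlgClosure ℚ ℂ).isAlgClosed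
  have halg : ∀ c : algebraicClosure ℚ ℂ, IsAlgebraic ℚ (algebraMap (algebraicClosure ℚ ℂ) ℂ c) :=
    fun c => mem_algebraicClosure_iff.mp c.2
  have hli' : LinearIndependent (algebraicClosure ℚ ℂ) (Fin.cons (1 : ℂ) l : Fin (n + 1) → ℂ) := by
    rw [Fintype.linearIndependent_iff]
    intro g hg
    rw [Fin.sum_univ_succ] at hg
    simp only [Fin.cons_zero, Fin.cons_succ] at hg
    have h1 := Pool.Agent.Lib.MP_60829e_nt.Bk.baker (I := Fin n) l hlog hli
      (algebraMap (algebraicClosure ℚ ℂ) ℂ (g 0)) (halg _)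
      (fun i => algebraMap (algebraicClosure ℚ ℂ) ℂ (g i.succ)) (fun i => halg _) (by
        rw [← hg]
        congr 1
        · rw [Algebra.smul_def, mul_one]
        · refine Finset.sum_congr rfl fun i _ => ?_
          rw [Algebra.smul_def, mul_comm])
    intro i
    refine Fin.cases ?_ (fun j => ?_) i
    · exact (map_eq_zero (algebraMap (algebraicClosure ℚ ℂ) ℂ)).mp h1.1
    · exact (map_eq_zero (algebraMap (algebraicClosure ℚ ℂ) ℂ)).mp (h1.2 j)
  subst hE
  rcases MP60829e.TL.tuple_law l hli' m with h | ⟨G, hG0, hGd, hG⟩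
  · exact Or.inl h
  · refine Or.inr ⟨G, hG0, hGd, fun c x hx hc => hG c x (fun k => ?_) hc⟩
    rw [hx k]
    refine Finset.sum_congr rfl fun j _ => ?_
    rw [Algebra.smul_def]
    rfl

end Pool.Agent.Results.MP_60829e_nt.TupleLaw
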